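import Pool.Agent.Helper65.KH.Goals

/-!
# Project KH (MP_20ee5e_ag): packet SR
-/

namespace Pool.Agent.Helper85.KH.SR

open Pool.Agent.Helper65.KH

theorem mem_res {ι : Type} [DecidableEq ι] [Fintype ι] (V : Finset (ι → ℕ)) (I : Finset ι)
    (r : I → ℕ) : r ∈ res V I ↔ ∃ v ∈ V, (∀ j, j ∉ I → v j = 0) ∧ (fun i : I => v i) = r := by
  unfold res
  simp only [Finset.mem_image, Finset.mem_filter, and_assoc]

theorem t : S_SR := by
  intro ι _ _ V V' q C I hq h
  refine ⟨?_, ?_⟩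
  · intro r hr
    rw [mem_res] at hr
    obtain ⟨v, hv, h0, rfl⟩ := hr
    obtain ⟨m, hm1, hm2, hm⟩ := h.1 v hv
    refine ⟨m, hm1, hm2, ?_⟩
    rw [mem_res]
    refine ⟨m • v, hm, fun j hj => ?_, ?_⟩
    · simp [h0 j hj]
    · funext i
      simp
  · intro r hr
    rw [mem_res] at hr
    obtain ⟨v', hv', h0, rfl⟩ := hr
    obtain ⟨v, hv, m, hm1, hm2, rfl⟩ := h.2 v' hv'
    refine ⟨fun i : I => v i, ?_, m, hm1, hm2, ?_⟩
    · rw [mem_res]
      refine ⟨v, hv, fun j hj => ?_, rfl⟩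
      have h1 := h0 j hj
      simp only [Pi.smul_apply, smul_eq_mul, mul_eq_zero] at h1
      rcases h1 with h1 | h1
      · omega
      · exact h1
    · funext i
      simp

end Pool.Agent.Helper85.KH.SR
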